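import Mathlib
import Pool.Agent.Q225.SigA

set_option autoImplicit false

namespace Pool.Agent.Results.MP_d14146_co.L1SphereOfInfluence

/-- a metric on a set -/
structure IsMetric {V : Type} (d : V → V → ℝ) : Prop where
  nonneg : ∀ i j, 0 ≤ d i j
  eq_zero_iff : ∀ i j, d i j = 0 ↔ i = j
  symm : ∀ i j, d i j = d j i
  triangle : ∀ i j k, d i k ≤ d i j + d j k

/-- radius of influence: the minimum of the distances to the other vertices -/
noncomputable def radius {V : Type} (d : V → V → ℝ) (i : V) : ℝ := ⨅ j : {j : V // j ≠ i}, d i j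

/-- SIG-metric for the graph `G` -/
def IsSIGMetric {V : Type} (G : SimpleGraph V) (d : V → V → ℝ) : Prop :=
  IsMetric d ∧ ∀ i j, i ≠ j →
    (G.Adj i j → d i j < radius d i + radius d j) ∧
    (¬ G.Adj i j → radius d i + radius d j ≤ d i j)

/-- `ℓ₁`-embeddability -/
def L1Embeddable {V : Type} (d : V → V → ℝ) : Prop :=
  ∃ m : ℕ, 1 ≤ m ∧ ∃ X : V → Fin m → ℝ, ∀ i j, ∑ k, |X i k - X j k| = d i j

theorem radius_eq {V : Type} (d : V → V → ℝ) (i : V) (r : ℝ)
    (hle : ∀ j, j ≠ i → r ≤ d i j) (hat : ∃ j, j ≠ i ∧ d i j = r) : radius d i = r := by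
  obtain ⟨j, hj, hr⟩ := hat
  have : Nonempty {j : V // j ≠ i} := ⟨⟨j, hj⟩⟩
  apply le_antisymm
  · rw [← hr]
    exact ciInf_le ⟨r, by rintro _ ⟨k, rfl⟩; exact hle k.1 k.2⟩ (⟨j, hj⟩ : {j : V // j ≠ i})
  · exact le_ciInf fun k => hle k.1 k.2

theorem exists_of_no_isolated {V : Type} [Finite V] [Nonempty V] (G : SimpleGraph V)
    (hG : ∀ v, ∃ w, G.Adj v w) : ∃ d, IsSIGMetric G d ∧ L1Embeddable d := by
  have := Fintype.ofFinite V
  obtain ⟨D⟩ := Pool.Agent.Q225.Sig.exists_data G hG
  obtain ⟨m, X, hX⟩ := D.isL1_dist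
  have hrad : ∀ i, radius D.dist i = D.rad i := fun i =>
    radius_eq _ _ _ (fun j hj => (D.main i j hj.symm).1.1) (D.attained i)
  refine ⟨D.dist, ⟨⟨?_, ?_, D.dist_comm, ?_⟩, ?_⟩, ?_⟩
  · intro i j
    rw [hX]
    exact Finset.sum_nonneg fun k _ => abs_nonneg _
  · intro i j
    constructor
    · intro h
      by_contra hij
      have h1 := (D.main i j hij).1.1
      have h2 := D.rad_pos i
      linarith
    · rintro rfl
      rw [hX]
      simp
  · intro i j k
    rw [hX, hX, hX, ← Finset.sum_add_distrib]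
    exact Finset.sum_le_sum fun l _ => abs_sub_le _ _ _
  · intro i j hij
    rw [hrad, hrad]
    exact (D.main i j hij).2
  · refine ⟨m, ?_, X, fun i j => (hX i j).symm⟩
    by_contra hm
    have hm0 : m = 0 := by omega
    subst hm0
    obtain ⟨v⟩ := ‹Nonempty V›
    obtain ⟨y, hy, hd⟩ := D.attained v
    have h2 := D.rad_pos v
    rw [hX] at hd
    simp at hd
    linarith

/-- **Answer to the question: yes.**
(1) Every finite connected simple graph with at least two vertices admits a SIG-metric which is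
`ℓ₁`-embeddable.
(2) More precisely, a finite simple graph on at least two vertices admits an `ℓ₁`-embeddable
SIG-metric if and only if it has no isolated vertex. -/
theorem result :
    (∀ (V : Type) [Finite V] (G : SimpleGraph V), 2 ≤ Nat.card V → G.Connected →
      ∃ d : V → V → ℝ, IsSIGMetric G d ∧ L1Embeddable d) ∧
    (∀ (V : Type) [Finite V] (G : SimpleGraph V), 2 ≤ Nat.card V →
      ((∃ d : V → V → ℝ, IsSIGMetric G d ∧ L1Embeddable d) ↔ ∀ v, ∃ w, G.Adj v w)) := by
  have conv : ∀ (V : Type) [Finite V] (G : SimpleGraph V), 2 ≤ Nat.card V →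
      ((∃ d : V → V → ℝ, IsSIGMetric G d ∧ L1Embeddable d) ↔ ∀ v, ∃ w, G.Adj v w) := by
    intro V _ G hV
    have : Nonempty V := by
      by_contra h
      rw [not_nonempty_iff] at h
      simp at hV
    constructor
    · rintro ⟨d, ⟨hd, hG⟩, -⟩ v
      have : Nonempty {j : V // j ≠ v} := by
        by_contra h
        rw [not_nonempty_iff] at h
        have : ∀ w : V, w = v := fun w => by
          by_contra hw
          exact h.elim ⟨w, hw⟩
        have : Subsingleton V := ⟨fun a b => (this a).trans (this b).symm⟩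
        have := (Finite.card_le_one_iff_subsingleton (α := V)).mpr inferInstance
        omega
      obtain ⟨⟨w, hw⟩, hmin⟩ := Finite.exists_min (fun j : {j : V // j ≠ v} => d v j)
      have hr : radius d v = d v w := radius_eq d v _ (fun j hj => hmin ⟨j, hj⟩) ⟨w, hw, rfl⟩
      refine ⟨w, ?_⟩
      by_contra hA
      have h1 := (hG v w hw.symm).2 hA
      have h2 : 0 < radius d w := by
        have : Nonempty {j : V // j ≠ w} := ⟨⟨v, hw.symm⟩⟩
        obtain ⟨⟨u, hu⟩, hmin'⟩ := Finite.exists_min (fun j : {j : V // j ≠ w} => d w j)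
        have hr' : radius d w = d w u := radius_eq d w _ (fun j hj => hmin' ⟨j, hj⟩) ⟨u, hu, rfl⟩
        rw [hr']
        exact lt_of_le_of_ne (hd.nonneg w u) fun h => hu ((hd.eq_zero_iff w u).mp h.symm).symm
      rw [hr] at h1
      linarith
    · exact exists_of_no_isolated G
  refine ⟨fun V _ G hV hc => ?_, fun V _ G hV => conv V G hV⟩
  rw [conv V G hV]
  intro v
  have : Nontrivial V := Finite.one_lt_card_iff_nontrivial.mp (by omega)
  exact hc.preconnected.exists_adj_of_nontrivial v

end Pool.Agent.Results.MP_d14146_co.L1SphereOfInfluence
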